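import Pool.Agent.L7h31.CP.Stm

/-! [FACE], [FAC0], [FAC1], [ADJ] of project CP (helper31): faces of the parallelepipeds. -/

set_option autoImplicit false

namespace Pool.Agent.L7h6.CP

open scoped BigOperators Topology
open Pool.Agent.L7h31.CE (HS IsPolytope IsFace E mk hor ver)
open Pool.Agent.L7h31.CP

theorem one (c n : ℤ) (x : ℝ) (hc : |c| ≤ 1) (h1 : (n : ℝ) ≤ x) (h2 : x ≤ n + 1) :
    (c : ℝ) * (x - n) - (if c = 1 then 1 else 0) ≤ 0 ∧
      ((c : ℝ) * (x - n) - (if c = 1 then 1 else 0) = 0 ↔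
        (c = 1 → x = n + 1) ∧ (c = -1 → x = n)) := by
  have h3 := abs_le.1 hc
  obtain h4 | h4 | h4 : c = -1 ∨ c = 0 ∨ c = 1 := by omega
  · subst h4
    norm_num
    refine ⟨h1, ?_⟩
    constructor <;> intro h <;> linarith
  · subst h4
    norm_num
  · subst h4
    norm_num
    refine ⟨by linarith, ?_⟩
    constructor <;> intro h <;> linarith

theorem two (c n m : ℤ) (x : ℝ) (hcm : c = m - n) (hc : |c| ≤ 1) (h1 : (n : ℝ) ≤ x)
    (h2 : x ≤ n + 1) :
    ((m : ℝ) ≤ x ∧ x ≤ m + 1) ↔ (c = 1 → x = n + 1) ∧ (c = -1 → x = n) := by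
  have h3 := abs_le.1 hc
  obtain h4 | h4 | h4 : c = -1 ∨ c = 0 ∨ c = 1 := by omega
  · have h5 : m = n - 1 := by omega
    subst h4 h5
    norm_num
    constructor
    · rintro ⟨h6, h7⟩
      linarith
    · intro h6
      constructor <;> linarith
  · have h5 : m = n := by omega
    subst h4 h5
    norm_num
    exact ⟨h1, h2⟩
  · have h5 : m = n + 1 := by omega
    subst h4 h5
    norm_num
    constructor
    · rintro ⟨h6, h7⟩
      linarith
    · intro h6
      constructor <;> linarith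

theorem three (n m : ℤ) (x : ℝ) (h1 : (n : ℝ) ≤ x) (h2 : x ≤ n + 1) (h3 : (m : ℝ) ≤ x)
    (h4 : x ≤ m + 1) : |m - n| ≤ 1 := by
  have h5 : (m : ℝ) ≤ n + 1 := by linarith
  have h6 : (n : ℝ) ≤ m + 1 := by linarith
  have h7 : m ≤ n + 1 := by exact_mod_cast h5
  have h8 : n ≤ m + 1 := by exact_mod_cast h6
  exact abs_le.2 ⟨by omega, by omega⟩

theorem s_FACE (hpl : S_PL) : S_FACE := by
  intro r i ν c v hc hv hne
  obtain ⟨p, q, hpq, h⟩ := hpl r (fun a => (c a : ℝ)) ((v : ℝ) - ∑ a, (c a : ℝ) * (vz r i a : ℝ))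
    ((i : ℝ) * ∑ a, (c a : ℝ) * (vz r i a : ℝ) - ∑ a, (c a : ℝ) * (ν a : ℝ) -
      ∑ a, (if c a = 1 then (1 : ℝ) else 0) - v * i - (if v = 1 then (1 : ℝ) else 0)) (by
      by_cases h1 : ∃ a, c a ≠ 0
      · obtain ⟨a, ha⟩ := h1
        exact Or.inr ⟨a, by exact_mod_cast ha⟩
      · push Not at h1
        left
        have h2 : v ≠ 0 := by
          rcases hne with h2 | ⟨a, ha⟩
          · exact h2
          · exact absurd (h1 a) ha
        simp only [h1]
        simpa using h2)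
  have hF : ∀ z : E r, (∑ a, (c a : ℝ) * hor z a) +
      ((v : ℝ) - ∑ a, (c a : ℝ) * (vz r i a : ℝ)) * ver z +
      ((i : ℝ) * ∑ a, (c a : ℝ) * (vz r i a : ℝ) - ∑ a, (c a : ℝ) * (ν a : ℝ) -
      ∑ a, (if c a = 1 then (1 : ℝ) else 0) - v * i - (if v = 1 then (1 : ℝ) else 0)) =
      (∑ a, ((c a : ℝ) * (lc i z a - ν a) - (if c a = 1 then (1 : ℝ) else 0))) +
        ((v : ℝ) * (ver z - i) - (if v = 1 then (1 : ℝ) else 0)) := by
    intro z
    have h1 : ∑ a, ((c a : ℝ) * (lc i z a - ν a) - (if c a = 1 then (1 : ℝ) else 0)) =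
        (∑ a, (c a : ℝ) * hor z a) - (ver z - i) * (∑ a, (c a : ℝ) * (vz r i a : ℝ)) -
        (∑ a, (c a : ℝ) * (ν a : ℝ)) - ∑ a, (if c a = 1 then (1 : ℝ) else 0) := by
      rw [Finset.mul_sum, ← Finset.sum_sub_distrib, ← Finset.sum_sub_distrib,
        ← Finset.sum_sub_distrib]
      refine Finset.sum_congr rfl fun a _ => ?_
      unfold lc
      ring
    rw [h1]
    ring
  have hT : ∀ z ∈ (tile i ν : Set (E r)),
      (∀ a, (c a : ℝ) * (lc i z a - ν a) - (if c a = 1 then (1 : ℝ) else 0) ≤ 0) ∧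
      (v : ℝ) * (ver z - i) - (if v = 1 then (1 : ℝ) else 0) ≤ 0 := fun z hz =>
    ⟨fun a => (one (c a) (ν a) _ (hc a) (hz.2.2 a).1 (hz.2.2 a).2).1,
      (one v i _ hv hz.1 hz.2.1).1⟩
  refine ⟨p, q, hpq, ?_, ?_⟩
  · intro z hz
    refine (h z).1.2 ?_
    rw [hF z]
    have h1 := hT z hz
    have h2 : ∑ a, ((c a : ℝ) * (lc i z a - ν a) - (if c a = 1 then (1 : ℝ) else 0)) ≤ 0 :=
      Finset.sum_nonpos fun a _ => h1.1 a
    linarith [h1.2]
  · ext z
    constructor
    · rintro ⟨hz, h1, h2⟩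
      refine ⟨hz, (h z).2.2 ?_⟩
      rw [hF z]
      have h3 : ∑ a, ((c a : ℝ) * (lc i z a - ν a) - (if c a = 1 then (1 : ℝ) else 0)) = 0 :=
        Finset.sum_eq_zero fun a _ =>
          (one (c a) (ν a) _ (hc a) (hz.2.2 a).1 (hz.2.2 a).2).2.2 (h1 a)
      rw [h3, (one v i _ hv hz.1 hz.2.1).2.2 h2, add_zero]
    · rintro ⟨hz, h1⟩
      have h2 := (h z).2.1 h1
      rw [hF z] at h2
      have h3 := hT z hz
      have h4 : ∑ a, ((c a : ℝ) * (lc i z a - ν a) - (if c a = 1 then (1 : ℝ) else 0)) ≤ 0 :=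
        Finset.sum_nonpos fun a _ => h3.1 a
      have h5 : ∑ a, ((c a : ℝ) * (lc i z a - ν a) - (if c a = 1 then (1 : ℝ) else 0)) = 0 := by
        linarith [h3.2]
      have h6 := (Finset.sum_eq_zero_iff_of_nonpos fun a _ => h3.1 a).1 h5
      refine ⟨hz, fun a => (one (c a) (ν a) _ (hc a) (hz.2.2 a).1 (hz.2.2 a).2).2.1
        (h6 a (Finset.mem_univ a)), (one v i _ hv hz.1 hz.2.1).2.1 (by linarith)⟩

theorem s_ADJ : S_ADJ := by
  rintro r i j ν μ ⟨z, h1, h2⟩
  exact three i j (ver z) h1.1 h1.2.1 h2.1 h2.2.1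

theorem s_FAC0 (hf : S_FACE) : S_FAC0 := by
  intro r i ν μ hne
  by_cases h0 : ((tile i ν : Set (E r)) ∩ tile i μ).Nonempty
  · right
    obtain ⟨w, hw1, hw2⟩ := h0
    have hc : ∀ a, |μ a - ν a| ≤ 1 := fun a =>
      three (ν a) (μ a) (lc i w a) (hw1.2.2 a).1 (hw1.2.2 a).2 (hw2.2.2 a).1 (hw2.2.2 a).2
    have h1 := hf r i ν (fun a => μ a - ν a) 0 hc (by norm_num) (Or.inr (by
      by_contra h2
      push Not at h2
      exact hne (funext fun a => by have := h2 a; omega)))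
    refine (congrArg (IsFace (tile i ν)) (Set.ext fun z => ?_)).mp h1
    constructor
    · rintro ⟨hz, h2, h3⟩
      refine ⟨hz, hz.1, hz.2.1, fun a => ?_⟩
      exact (two (μ a - ν a) (ν a) (μ a) (lc i z a) rfl (hc a) (hz.2.2 a).1 (hz.2.2 a).2).2
        (h2 a)
    · rintro ⟨hz, hz2⟩
      refine ⟨hz, fun a => ?_, by norm_num, by norm_num⟩
      exact (two (μ a - ν a) (ν a) (μ a) (lc i z a) rfl (hc a) (hz.2.2 a).1 (hz.2.2 a).2).1
        (hz2.2.2 a)
  · left
    exact Set.not_nonempty_iff_eq_empty.1 h0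

theorem lc_next {r : ℕ} (i : ℤ) (z : E r) (h : ver z = i + 1) (a : Fin r) :
    lc (i + 1) z a = lc i z a + (vz r i a : ℝ) := by
  unfold lc
  rw [h]
  push_cast
  ring

theorem s_FAC1 (hf : S_FACE) : S_FAC1 := by
  intro r i ν μ
  by_cases h0 : ((tile i ν : Set (E r)) ∩ tile (i + 1) μ).Nonempty
  · right
    have hv : ∀ z : E r, z ∈ (tile i ν : Set (E r)) → z ∈ (tile (i + 1) μ : Set (E r)) →
        ver z = i + 1 := by
      intro z h1 h2
      have h3 := h1.2.1
      have h4 := h2.1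
      push_cast at h4
      linarith
    obtain ⟨w, hw1, hw2⟩ := h0
    have hcast : ∀ a, ((μ a - vz r i a : ℤ) : ℝ) = (μ a : ℝ) - (vz r i a : ℝ) := fun a => by
      push_cast
      ring
    have hcast2 : ∀ a, ((ν a + vz r i a : ℤ) : ℝ) = (ν a : ℝ) + (vz r i a : ℝ) := fun a => by
      push_cast
      ring
    have hc : ∀ a, |(μ a - vz r i a) - ν a| ≤ 1 := fun a => by
      have h1 := hw2.2.2 a
      rw [lc_next i w (hv w hw1 hw2)] at h1
      refine three (ν a) (μ a - vz r i a) (lc i w a) (hw1.2.2 a).1 (hw1.2.2 a).2 ?_ ?_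
      · rw [hcast]
        linarith [h1.1]
      · rw [hcast]
        linarith [h1.2]
    have hc2 : ∀ a, |(ν a + vz r i a) - μ a| ≤ 1 := fun a => by
      have h1 := hc a
      rw [abs_le] at h1 ⊢
      constructor <;> linarith [h1.1, h1.2]
    constructor
    · have h1 := hf r i ν (fun a => (μ a - vz r i a) - ν a) 1 hc (by norm_num)
        (Or.inl (by norm_num))
      refine (congrArg (IsFace (tile i ν)) (Set.ext fun z => ?_)).mp h1
      constructor
      · rintro ⟨hz, h2, h3, h4⟩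
        have h5 := h3 rfl
        refine ⟨hz, ?_, ?_, fun a => ?_⟩
        · push_cast
          exact h5.ge
        · push_cast
          linarith
        · have h6 := (two ((μ a - vz r i a) - ν a) (ν a) (μ a - vz r i a) (lc i z a) rfl (hc a)
            (hz.2.2 a).1 (hz.2.2 a).2).2 (h2 a)
          rw [hcast] at h6
          rw [lc_next i z h5]
          constructor <;> linarith [h6.1, h6.2]
      · rintro ⟨hz, hz2⟩
        have h5 := hv z hz hz2
        refine ⟨hz, fun a => ?_, fun _ => h5, by norm_num⟩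
        refine (two ((μ a - vz r i a) - ν a) (ν a) (μ a - vz r i a) (lc i z a) rfl (hc a)
          (hz.2.2 a).1 (hz.2.2 a).2).1 ?_
        have h6 := hz2.2.2 a
        rw [lc_next i z h5] at h6
        rw [hcast]
        constructor <;> linarith [h6.1, h6.2]
    · have h1 := hf r (i + 1) μ (fun a => (ν a + vz r i a) - μ a) (-1) hc2 (by norm_num)
        (Or.inl (by norm_num))
      refine (congrArg (IsFace (tile (i + 1) μ)) (Set.ext fun z => ?_)).mp h1
      constructor
      · rintro ⟨hz, h2, h3, h4⟩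
        have h5 : ver z = i + 1 := by
          have h6 := h4 rfl
          push_cast at h6
          exact h6
        refine ⟨⟨?_, ?_, fun a => ?_⟩, hz⟩
        · linarith
        · linarith
        · have h6 := (two ((ν a + vz r i a) - μ a) (μ a) (ν a + vz r i a) (lc (i + 1) z a) rfl
            (hc2 a) (hz.2.2 a).1 (hz.2.2 a).2).2 (h2 a)
          rw [hcast2, lc_next i z h5] at h6
          constructor <;> linarith [h6.1, h6.2]
      · rintro ⟨hz, hz2⟩
        have h5 := hv z hz hz2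
        refine ⟨hz2, fun a => ?_, by norm_num, fun _ => by push_cast; exact h5⟩
        refine (two ((ν a + vz r i a) - μ a) (μ a) (ν a + vz r i a) (lc (i + 1) z a) rfl
          (hc2 a) (hz2.2.2 a).1 (hz2.2.2 a).2).1 ?_
        have h6 := hz.2.2 a
        rw [hcast2, lc_next i z h5]
        constructor <;> linarith [h6.1, h6.2]
  · left
    exact Set.not_nonempty_iff_eq_empty.1 h0

end Pool.Agent.L7h6.CP
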